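import Pool.Agent.H15.TG.Targets

/-!
Symplectic torus actions commuting with a unipotent one-parameter group (MP_51eb24_ag), row PSK:
the centralizer of a partial splitting.
-/

set_option autoImplicit false

open MvPolynomial Pool.Agent.H2.ST Pool.Agent.H15.TG

namespace Pool.Agent.H70.TG

section

variable {k : Type} [Field k] {m : ℕ}

theorem iter_smul (r : k) (f : Pol k m) (n : ℕ) (a : Pol k m) :
    (br (r • f))^[n] a = r ^ n • (br f)^[n] a := by
  induction n generalizing a with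
  | zero => simp
  | succ n ih =>
    rw [Function.iterate_succ_apply', Function.iterate_succ_apply', ih, smul_br, br_smul,
      smul_smul, pow_succ, mul_comm]

variable (S : Fin m → Prop) (u v : Fin m → Pol k m) (c : Fin m → k)

/-- the scalars -/
def sc : {i // S i} ⊕ {i // S i} → k
  | Sum.inl i => (c i.1)⁻¹
  | Sum.inr i => -(c i.1)⁻¹

/-- the slices -/
def zz : {i // S i} ⊕ {i // S i} → Pol k m
  | Sum.inl i => u i.1
  | Sum.inr i => v i.1

/-- the Hamiltonians -/
noncomputable def GG (s : {i // S i} ⊕ {i // S i}) : Pol k m :=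
  sc S c s • zz S u v s.swap

end

section

variable {k : Type} [Field k] {m : ℕ} {Γ : Type} [AddCommGroup Γ]
    {W : Γ → Submodule k (Pol k m)} {w : Fin m → Γ} {S : Fin m → Prop} {π : Fin m → Γ →+ ℤ}
    {u v : Fin m → Pol k m} {c : Fin m → k}

theorem GG_zz (hS : Ps W w S π u v c) (s t : {i // S i} ⊕ {i // S i}) :
    (s = t → br (GG S u v c s) (zz S u v t) = 1) ∧
    (s ≠ t → br (GG S u v c s) (zz S u v t) = 0) := by
  rcases s with i | i <;> rcases t with j | j
  · change (_ → br ((c i.1)⁻¹ • v i.1) (u j.1) = 1) ∧ (_ → br ((c i.1)⁻¹ • v i.1) (u j.1) = 0)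
    refine ⟨fun h => ?_, fun h => ?_⟩
    · have hij : i = j := Sum.inl.inj h
      rw [← hij, smul_br, (hS.par i.1 i.2).vu, smul_eq_C_mul, ← C_mul,
        inv_mul_cancel₀ (hS.par i.1 i.2).hc, C_1]
    · have hij : j.1 ≠ i.1 := by
        intro h2
        exact h (by rw [Subtype.ext h2])
      rw [smul_br, br_anti, hS.uv j.1 i.1 j.2 i.2 hij, neg_zero, smul_zero]
  · change (_ → br ((c i.1)⁻¹ • v i.1) (v j.1) = 1) ∧ (_ → br ((c i.1)⁻¹ • v i.1) (v j.1) = 0)
    refine ⟨fun h => by simp at h, fun _ => ?_⟩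
    rw [smul_br, hS.vv i.1 j.1 i.2 j.2, smul_zero]
  · change (_ → br ((-(c i.1)⁻¹) • u i.1) (u j.1) = 1) ∧
      (_ → br ((-(c i.1)⁻¹) • u i.1) (u j.1) = 0)
    refine ⟨fun h => by simp at h, fun _ => ?_⟩
    rw [smul_br, hS.uu i.1 j.1 i.2 j.2, smul_zero]
  · change (_ → br ((-(c i.1)⁻¹) • u i.1) (v j.1) = 1) ∧
      (_ → br ((-(c i.1)⁻¹) • u i.1) (v j.1) = 0)
    refine ⟨fun h => ?_, fun h => ?_⟩
    · have hij : i = j := Sum.inr.inj h
      rw [← hij, smul_br, br_anti, (hS.par i.1 i.2).vu, neg_smul, smul_neg, neg_neg,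
        smul_eq_C_mul, ← C_mul, inv_mul_cancel₀ (hS.par i.1 i.2).hc, C_1]
    · have hij : i.1 ≠ j.1 := by
        intro h2
        exact h (by rw [Subtype.ext h2])
      rw [smul_br, hS.uv i.1 j.1 i.2 j.2 hij, smul_zero]

theorem GG_const (hS : Ps W w S π u v c) (s t : {i // S i} ⊕ {i // S i}) :
    ∃ r : k, br (GG S u v c s) (GG S u v c t) = C r := by
  classical
  have h := GG_zz hS s t.swap
  by_cases hst : s = t.swap
  · refine ⟨sc S c t, ?_⟩
    rw [show GG S u v c t = sc S c t • zz S u v t.swap from rfl, br_smul, h.1 hst,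
      smul_eq_C_mul, mul_one]
  · refine ⟨0, ?_⟩
    rw [show GG S u v c t = sc S c t • zz S u v t.swap from rfl, br_smul, h.2 hst, smul_zero,
      C_0]

theorem sc_ne (hS : Ps W w S π u v c) (s : {i // S i} ⊕ {i // S i}) : sc S c s ≠ 0 := by
  rcases s with i | i
  · exact inv_ne_zero (hS.par i.1 i.2).hc
  · exact neg_ne_zero.2 (inv_ne_zero (hS.par i.1 i.2).hc)

theorem nps (h1 : T_NIL) (hS : Ps W w S π u v c) (i : Fin m) (hi : S i) (f : Pol k m) :
    (∃ n : ℕ, (br (u i))^[n] f = 0) ∧ (∃ n : ℕ, (br (v i))^[n] f = 0) := by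
  have hP := hS.par i hi
  have hvu := hP.vu
  have huv : br (u i) (v i) = C (-c i) := by
    rw [br_anti, hvu, C_neg]
  have hu : ∀ g : Pol k m, (ad (u i) : Pol k m → Pol k m) g = br (u i) g := ad_apply (u i)
  have hv : ∀ g : Pol k m, (ad (v i) : Pol k m → Pol k m) g = br (v i) g := ad_apply (v i)
  constructor
  · obtain ⟨n, hn⟩ := h1 k (Pol k m) (ad (u i))
      ((Cen {u i, v i} : Set (Pol k m)) ∪ {u i, v i}) (fun s hs => by
        rcases hs with hs | hs | hs
        · refine ⟨1, ?_⟩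
          rw [Function.iterate_one, hu, br_anti, hs (u i) (Or.inl rfl), neg_zero]
        · refine ⟨1, ?_⟩
          rw [Function.iterate_one, hu, hs, br_self]
        · refine ⟨2, ?_⟩
          have hs' : s = v i := hs
          rw [Function.iterate_succ_apply, Function.iterate_one, hu, hu, hs', huv, br_C]) f
      (hP.gen f)
    refine ⟨n, ?_⟩
    rw [← hn]
    exact congrArg (fun F : Pol k m → Pol k m => F^[n] f) (funext fun g => (hu g).symm)
  · obtain ⟨n, hn⟩ := h1 k (Pol k m) (ad (v i))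
      ((Cen {u i, v i} : Set (Pol k m)) ∪ {u i, v i}) (fun s hs => by
        rcases hs with hs | hs | hs
        · refine ⟨1, ?_⟩
          rw [Function.iterate_one, hv, br_anti, hs (v i) (Or.inr rfl), neg_zero]
        · refine ⟨2, ?_⟩
          have hs' : s = u i := hs
          rw [Function.iterate_succ_apply, Function.iterate_one, hv, hv, hs', hvu, br_C]
        · refine ⟨1, ?_⟩
          have hs' : s = v i := hs
          rw [Function.iterate_one, hv, hs', br_self]) f
      (hP.gen f)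
    refine ⟨n, ?_⟩
    rw [← hn]
    exact congrArg (fun F : Pol k m → Pol k m => F^[n] f) (funext fun g => (hv g).symm)

theorem spg [CharZero k] (h1 : T_MSL) (h2 : T_TRM) (hS : Ps W w S π u v c)
    (hnil : ∀ i, S i → ∀ f : Pol k m,
    (∃ n : ℕ, (br (u i))^[n] f = 0) ∧ (∃ n : ℕ, (br (v i))^[n] f = 0)) :
    (∀ f : Pol k m, f ∈ Algebra.adjoin k
    ((KS S u v : Set (Pol k m)) ∪ {p | ∃ i, S i ∧ (p = u i ∨ p = v i)})) ∧
    ∀ (n : ℕ) (F : Fin n → Pol k m), (∀ i, F i ∈ KS S u v) →
    AlgebraicIndependent k F → n + 2 * Nat.card {i // S i} ≤ 2 * m := by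
  classical
  set D : {i // S i} ⊕ {i // S i} → Derivation k (Pol k m) (Pol k m) :=
    fun s => ad (GG S u v c s) with hD
  have hDa : ∀ s a, D s a = br (GG S u v c s) a := fun s a => ad_apply _ _
  have hDf : ∀ s, (D s : Pol k m → Pol k m) = br (GG S u v c s) := fun s => funext fun a => hDa s a
  have hcomm : ∀ s t a, D s (D t a) = D t (D s a) := by
    intro s t a
    rw [hDa, hDa, hDa, hDa, jac]
    obtain ⟨r, hr⟩ := GG_const hS s t
    rw [hr, C_br, zero_add]
  have hnilD : ∀ s a, ∃ n : ℕ, (D s)^[n] a = 0 := by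
    intro s a
    rcases s with i | i
    · obtain ⟨n, hn⟩ := (hnil i.1 i.2 a).2
      refine ⟨n, ?_⟩
      rw [hDf]
      change (br ((c i.1)⁻¹ • v i.1))^[n] a = 0
      rw [iter_smul, hn, smul_zero]
    · obtain ⟨n, hn⟩ := (hnil i.1 i.2 a).1
      refine ⟨n, ?_⟩
      rw [hDf]
      change (br ((-(c i.1)⁻¹) • u i.1))^[n] a = 0
      rw [iter_smul, hn, smul_zero]
  have hDz : ∀ s t, D s (zz S u v t) = if s = t then 1 else 0 := by
    intro s t
    rw [hDa]
    by_cases h : s = t
    · rw [if_pos h]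
      exact (GG_zz hS s t).1 h
    · rw [if_neg h]
      exact (GG_zz hS s t).2 h
  have hker : ∀ g, (∀ s, D s g = 0) ↔ g ∈ KS S u v := by
    intro g
    have hGz : ∀ s, D s g = 0 ↔ br (zz S u v s.swap) g = 0 := by
      intro s
      rw [hDa]
      change br (sc S c s • zz S u v s.swap) g = 0 ↔ _
      rw [smul_br]
      constructor
      · intro h
        exact (smul_eq_zero.1 h).resolve_left (sc_ne hS s)
      · intro h
        rw [h, smul_zero]
    constructor
    · intro h p hp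
      obtain ⟨i, hi, hp | hp⟩ := hp
      · have h3 := (hGz (Sum.inr ⟨i, hi⟩)).1 (h _)
        rw [hp, br_anti]
        rw [show zz S u v (Sum.inr (⟨i, hi⟩ : {i // S i})).swap = u i from rfl] at h3
        rw [h3, neg_zero]
      · have h3 := (hGz (Sum.inl ⟨i, hi⟩)).1 (h _)
        rw [hp, br_anti]
        rw [show zz S u v (Sum.inl (⟨i, hi⟩ : {i // S i})).swap = v i from rfl] at h3
        rw [h3, neg_zero]
    · intro h s
      rw [hGz]
      rcases s with i | i
      · have h3 := h (v i.1) ⟨i.1, i.2, Or.inr rfl⟩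
        change br (v i.1) g = 0
        rw [br_anti, h3, neg_zero]
      · have h3 := h (u i.1) ⟨i.1, i.2, Or.inl rfl⟩
        change br (u i.1) g = 0
        rw [br_anti, h3, neg_zero]
  refine ⟨fun f => ?_, fun n f hf hai => ?_⟩
  · have h3 := h1 k (Pol k m) _ D (zz S u v) hcomm hnilD hDz f
    refine Algebra.adjoin_mono ?_ h3
    rintro g (hg | ⟨s, hs⟩)
    · exact Or.inl ((hker g).1 hg)
    · right
      rw [← hs]
      rcases s with i | i
      · exact ⟨i.1, i.2, Or.inl rfl⟩
      · exact ⟨i.1, i.2, Or.inr rfl⟩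
  · have h3 := h2 k m n _ D (zz S u v) f hnilD hDz (fun s l => (hker (f l)).2 (hf l) s) hai
    rw [Fintype.card_sum] at h3
    rw [Nat.card_eq_fintype_card]
    omega

theorem kfc [CharZero k] (h1 : T_LFC)
    (hnil : ∀ i, S i → ∀ f : Pol k m,
    (∃ n : ℕ, (br (u i))^[n] f = 0) ∧ (∃ n : ℕ, (br (v i))^[n] f = 0)) :
    ∀ a b : Pol k m, a * b ≠ 0 → a * b ∈ KS S u v → a ∈ KS S u v ∧ b ∈ KS S u v := by
  have hL : ∀ g : Pol k m, (∀ f : Pol k m, ∃ n : ℕ, (br g)^[n] f = 0) →
      ∀ a b : Pol k m, a * b ≠ 0 → br (a * b) g = 0 → br a g = 0 ∧ br b g = 0 := by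
    intro g hg a b hab h0
    have hD : LND (br g) := ⟨br_add g, br_mul g, hg⟩
    have h2 : br g (a * b) = 0 := by rw [br_anti, h0, neg_zero]
    obtain ⟨h3, h4⟩ := h1 (Pol k m) (br g) hD a b hab h2
    exact ⟨by rw [br_anti, h3, neg_zero], by rw [br_anti, h4, neg_zero]⟩
  intro a b hab hcen
  have key : ∀ g ∈ {p : Pol k m | ∃ i, S i ∧ (p = u i ∨ p = v i)},
      br a g = 0 ∧ br b g = 0 := by
    intro g hg
    have h0 : br (a * b) g = 0 := hcen g hg
    obtain ⟨i, hi, hgi⟩ := hg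
    refine hL g ?_ a b hab h0
    intro f
    rcases hgi with rfl | rfl
    · exact (hnil i hi f).1
    · exact (hnil i hi f).2
  exact ⟨fun g hg => (key g hg).1, fun g hg => (key g hg).2⟩

end

theorem pf_PSK (hMSL : T_MSL) (hTRM : T_TRM) (hNIL : T_NIL) (hLFC : T_LFC) : T_PSK := by
  intro k _ _ m Γ _ W w S ϖ u v c hS
  have hnil := fun i hi f => nps hNIL hS i hi f
  refine ⟨hnil, (spg hMSL hTRM hS hnil).1, ?_, kfc hLFC hnil⟩
  intro ι _ F hF hai
  have e := (Fintype.equivFin ι).symm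
  have h := (spg hMSL hTRM hS hnil).2 (Fintype.card ι) (fun j => F (e j)) (fun j => hF _)
    (hai.comp e e.injective)
  exact h

end Pool.Agent.H70.TG
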