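import Pool.Agent.H15.TG.Targets

/-!
Symplectic torus actions commuting with a unipotent one-parameter group (MP_51eb24_ag), row PSX:
elements of the centralizer with given linear parts.
-/

set_option autoImplicit false

open MvPolynomial Pool.Agent.H2.ST Pool.Agent.H15.TG

namespace Pool.Agent.H70.TG.PSXr

section

variable {k : Type} [Field k] {m : ℕ}

/-- the split coordinates -/
def zz (S : Fin m → Prop) (u v : Fin m → Pol k m) : {i // S i} ⊕ {i // S i} → Pol k m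
  | Sum.inl i => u i.1
  | Sum.inr i => v i.1

/-- modulo the split coordinates, every polynomial is in the centralizer -/
theorem mod_split {S : Fin m → Prop} {u v : Fin m → Pol k m}
    (h : ∀ f : Pol k m, f ∈ Algebra.adjoin k
      ((KS S u v : Set (Pol k m)) ∪ {p | ∃ i, S i ∧ (p = u i ∨ p = v i)})) (F : Pol k m) :
    ∃ κ ∈ KS S u v, F - κ ∈ Ideal.span (Set.range (zz S u v)) := by
  induction h F using Algebra.adjoin_induction with
  | mem x hx =>
    rcases hx with hx | ⟨i, hi, hx | hx⟩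
    · exact ⟨x, hx, by rw [sub_self]; exact Submodule.zero_mem _⟩
    · refine ⟨0, Subalgebra.zero_mem _, ?_⟩
      rw [sub_zero, hx]
      exact Ideal.subset_span ⟨Sum.inl ⟨i, hi⟩, rfl⟩
    · refine ⟨0, Subalgebra.zero_mem _, ?_⟩
      rw [sub_zero, hx]
      exact Ideal.subset_span ⟨Sum.inr ⟨i, hi⟩, rfl⟩
  | algebraMap r =>
    exact ⟨algebraMap k _ r, Subalgebra.algebraMap_mem _ r, by
      rw [sub_self]; exact Submodule.zero_mem _⟩
  | add x y hx hy ihx ihy =>
    obtain ⟨a, ha, ha'⟩ := ihx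
    obtain ⟨b, hb, hb'⟩ := ihy
    refine ⟨a + b, Subalgebra.add_mem _ ha hb, ?_⟩
    rw [add_sub_add_comm]
    exact Ideal.add_mem _ ha' hb'
  | mul x y hx hy ihx ihy =>
    obtain ⟨a, ha, ha'⟩ := ihx
    obtain ⟨b, hb, hb'⟩ := ihy
    refine ⟨a * b, Subalgebra.mul_mem _ ha hb, ?_⟩
    have e : x * y - a * b = y * (x - a) + a * (y - b) := by ring
    rw [e]
    exact Ideal.add_mem _ (Ideal.mul_mem_left _ _ ha') (Ideal.mul_mem_left _ _ hb')

end

theorem lift {k : Type} [Field k] [CharZero k] {m : ℕ} {Γ : Type} [AddCommGroup Γ]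
    {W : Γ → Submodule k (Pol k m)} {w : Fin m → Γ} {S : Fin m → Prop} {ϖ : Fin m → Γ →+ ℤ}
    {u v : Fin m → Pol k m} {c : Fin m → k} (hPSK : T_PSK) (hPSG : T_PSG)
    (hS : Ps W w S ϖ u v c) (χ : Γ) (hχ : ∀ j, S j → ϖ j χ = 0) (F : Pol k m) (hF : F ∈ W χ) :
    ∃ κ ∈ KS S u v, κ ∈ W χ ∧ ∀ g, constantCoeff (br κ g) = constantCoeff (br F g) := by
  classical
  have hP : PGr W := hS.toPGr
  obtain ⟨κ, hκ, hI⟩ := mod_split (hPSK k m Γ W w S ϖ u v c hS).2.1 F
  obtain ⟨a, ha⟩ := Ideal.mem_span_range_iff_exists_fun.1 hI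
  -- weights of the split coordinates
  let wt : {i // S i} ⊕ {i // S i} → Γ := Sum.elim (fun i => w i.1) (fun i => -w i.1)
  have hz : ∀ s, zz S u v s ∈ W (wt s) := by
    rintro (i | i)
    · exact (hS.par i.1 i.2).hu
    · exact (hS.par i.1 i.2).hv
  have hwt : ∀ s, wt s ≠ 0 ∧ χ - wt s ≠ 0 := by
    rintro (i | i)
    · have h1 := (hS.par i.1 i.2).pa
      refine ⟨fun h => ?_, fun h => ?_⟩
      · have h2 : w i.1 = 0 := h
        rw [h2, map_zero] at h1
        exact lt_irrefl _ h1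
      · have h2 : χ - w i.1 = 0 := h
        have h3 := congrArg (ϖ i.1) h2
        rw [map_sub, hχ i.1 i.2, map_zero] at h3
        omega
    · have h1 := (hS.par i.1 i.2).pa
      refine ⟨fun h => ?_, fun h => ?_⟩
      · have h2 : -w i.1 = 0 := h
        rw [neg_eq_zero.1 h2, map_zero] at h1
        exact lt_irrefl _ h1
      · have h2 : χ - -w i.1 = 0 := h
        have h3 := congrArg (ϖ i.1) h2
        rw [map_sub, hχ i.1 i.2, map_neg, map_zero] at h3
        omega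
  refine ⟨cmp hP.toGr κ χ, (hPSG k m Γ W w S ϖ u v c hS).1 κ hκ χ, cmp_mem _ _ _, fun g => ?_⟩
  have h1 : F = cmp hP.toGr κ χ + ∑ s, cmp hP.toGr (a s) (χ - wt s) * zz S u v s := by
    have h2 : F = κ + ∑ s, a s * zz S u v s := by rw [ha]; ring
    have h3 : cmp hP.toGr F χ = F := by
      rw [cmp_of_mem hP.toGr hF, Finsupp.single_eq_same]
    have h4 : cmp hP.toGr F χ = cmp hP.toGr κ χ + ∑ s, cmp hP.toGr (a s * zz S u v s) χ := by
      conv_lhs => rw [h2]
      rw [map_add, map_sum, Finsupp.add_apply, Finsupp.finsetSum_apply]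
    rw [h3] at h4
    rw [h4]
    congr 1
    refine Finset.sum_congr rfl fun s _ => ?_
    have h5 := cmp_mul_of_mem hP.toGr (hz s) (a s) (χ - wt s)
    rwa [sub_add_cancel] at h5
  have h2 : constantCoeff (br (∑ s, cmp hP.toGr (a s) (χ - wt s) * zz S u v s) g) = 0 := by
    rw [sum_br, map_sum]
    refine Finset.sum_eq_zero fun s _ => ?_
    rw [mul_br, map_add, map_mul, map_mul, hP.van _ (hwt s).2 _ (cmp_mem _ _ _),
      hP.van _ (hwt s).1 _ (hz s), zero_mul, zero_mul, add_zero]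
  conv_rhs => rw [h1]
  rw [add_br, map_add, h2, add_zero]

theorem pf_PSX (hPSK : T_PSK) (hPSG : T_PSG) : T_PSX := by
  classical
  intro k _ _ m Γ _ W y w S ϖ u v c hS hA
  have hl : ∀ i, ∃ κ : Pol k m, ¬ S i → κ ∈ KS S u v ∧ κ ∈ W (w i) ∧
      ∀ g, constantCoeff (br κ g) = constantCoeff (br (y (Sum.inl i)) g) := by
    intro i
    by_cases hi : S i
    · exact ⟨0, fun h => absurd hi h⟩
    · obtain ⟨κ, h1, h2, h3⟩ := lift hPSK hPSG hS (w i)
        (fun j hj => hS.pz j hj i (fun e => hi (e ▸ hj))) (y (Sum.inl i)) (hA.hl i)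
      exact ⟨κ, fun _ => ⟨h1, h2, h3⟩⟩
  have hr : ∀ i, ∃ κ : Pol k m, ¬ S i → κ ∈ KS S u v ∧ κ ∈ W (-w i) ∧
      ∀ g, constantCoeff (br κ g) = constantCoeff (br (y (Sum.inr i)) g) := by
    intro i
    by_cases hi : S i
    · exact ⟨0, fun h => absurd hi h⟩
    · obtain ⟨κ, h1, h2, h3⟩ := lift hPSK hPSG hS (-w i)
        (fun j hj => by rw [map_neg, hS.pz j hj i (fun e => hi (e ▸ hj)), neg_zero])
        (y (Sum.inr i)) (hA.hr i)
      exact ⟨κ, fun _ => ⟨h1, h2, h3⟩⟩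
  choose κl hκl using hl
  choose κr hκr using hr
  exact ⟨Sum.elim κl κr, fun i hi => ⟨hκl i hi, hκr i hi⟩⟩

end Pool.Agent.H70.TG.PSXr
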